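import Pool.Agent.Y992.DZ.Stm
import Pool.Agent.Y992.HE.All
import Pool.Agent.Y907.DZ.Cor
import Pool.Agent.Y434.DZ.SSM

set_option autoImplicit false

/-! Project DZ: the influence bound for finite sets of lattice points. -/

namespace Pool.Agent.Y992.DZ

open Finset Pool.Agent.H983R2.GC Pool.Agent.W341.UG Pool.Agent.Y992.HL

/-- The influence bound for `q ≥ (2 + ε) d`, `d ≥ d₀(ε)`. -/
theorem t_ZB (ε : ℝ) (hε : 0 < ε) : ∃ (d0 l : ℕ) (A : ℝ), 0 ≤ A ∧ 1 ≤ l ∧ 1 ≤ d0 ∧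
    ∀ d q : ℕ, d0 ≤ d → (2 + ε) * (d : ℝ) ≤ (q : ℝ) → 2 * d + 2 ≤ q ∧ ZB d q l A := by
  obtain ⟨K, l, A, β, hA, hl, hβ, hK, h4⟩ := Pool.Agent.Y992.HE.s_inf (min (ε / 2) 1)
    (lt_min (half_pos hε) one_pos) (min_le_right _ _)
  have hβε : 0 < β * ε := mul_pos hβ hε
  refine ⟨⌈(K : ℝ) / (β * ε)⌉₊ + ⌈2 / ε⌉₊ + 1, l, A, hA, hl, by omega, fun d q hd hq => ?_⟩
  have e1 : (⌈(K : ℝ) / (β * ε)⌉₊ : ℝ) + ⌈2 / ε⌉₊ + 1 ≤ d := by exact_mod_cast hd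
  have c1 := Nat.le_ceil ((K : ℝ) / (β * ε))
  have c2 := Nat.le_ceil (2 / ε)
  have n1 : (0 : ℝ) ≤ ⌈(K : ℝ) / (β * ε)⌉₊ := Nat.cast_nonneg _
  have n2 : (0 : ℝ) ≤ ⌈2 / ε⌉₊ := Nat.cast_nonneg _
  have e2 : (K : ℝ) / (β * ε) ≤ d := by linarith
  have e3 : 2 / ε ≤ d := by linarith
  rw [div_le_iff₀ hβε] at e2
  rw [div_le_iff₀ hε] at e3
  have hq2 : 2 * d + 2 ≤ q := by
    have : ((2 * d + 2 : ℕ) : ℝ) ≤ (q : ℝ) := by push_cast; nlinarith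
    exact_mod_cast this
  have hs : ((q - 2 * d : ℕ) : ℝ) = (q : ℝ) - 2 * (d : ℝ) := by
    rw [Nat.cast_sub (by omega)]; push_cast; ring
  have hd0 : (0 : ℝ) ≤ d := Nat.cast_nonneg d
  refine ⟨hq2, fun V _ _ x c0 hx N j => ?_⟩
  have hG : ∀ u w, (zgr x).Adj u w → ∑ i, |x u i - x w i| = 1 := fun u w h => h
  have h5 := h4 V (Fin q) (zgr x) (fun u w => (∑ i, |x u i - x w i|).toNat) c0 (q - 2 * d) (2 * d)
    (by omega) ?_ (Pool.Agent.Y992.HE.GE_mono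
      (Pool.Agent.Y992.HE.GE_of_GD (Pool.Agent.Y514.HL.gd_Zd d V (zgr x) x hx hG K)) ?_ le_rfl)
    ?_ N j
  · exact h5
  · have m1 : min (ε / 2) 1 ≤ ε / 2 := min_le_left _ _
    have m2 : min (ε / 2) 1 * ((2 * d : ℕ) : ℝ) ≤ ε / 2 * ((2 * d : ℕ) : ℝ) :=
      mul_le_mul_of_nonneg_right m1 (Nat.cast_nonneg _)
    rw [hs]
    push_cast at m2 ⊢
    nlinarith
  · rw [hs]
    have : ε * (d : ℝ) ≤ (q : ℝ) - 2 * (d : ℝ) := by linarith
    have h6 : β * (ε * (d : ℝ)) ≤ β * ((q : ℝ) - 2 * (d : ℝ)) :=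
      mul_le_mul_of_nonneg_left this hβ.le
    push_cast
    nlinarith
  · intro w
    have h7 := Pool.Agent.Y514.HL.deg_Zd d V (zgr x) x hx hG w
    refine le_trans ?_ h7
    rw [← Set.ncard_coe_finset]
    refine Set.ncard_le_ncard ?_ (Set.toFinite _)
    intro y hy
    simp only [nb, coe_filter, mem_univ, true_and, Set.mem_ofPred_eq] at hy
    exact hy

/-- `A / 2 ^ (n / l)` decays exponentially. -/
theorem pow_decay (l : ℕ) (hl : 1 ≤ l) : ∃ ρ : ℝ, 0 < ρ ∧ ρ < 1 ∧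
    ∀ n : ℕ, 1 / (2 : ℝ) ^ (n / l) ≤ 2 * ρ ^ n := by
  have hl' : (0 : ℝ) < l := by exact_mod_cast hl
  refine ⟨(1 / 2 : ℝ) ^ (1 / (l : ℝ)), by positivity,
    Real.rpow_lt_one (by norm_num) (by norm_num) (by positivity), fun n => ?_⟩
  have h1 : ((1 / 2 : ℝ) ^ (1 / (l : ℝ))) ^ n = (1 / 2 : ℝ) ^ ((n : ℝ) / l) := by
    rw [← Real.rpow_natCast, ← Real.rpow_mul (by norm_num)]
    congr 1; ring
  have h2 : 1 / (2 : ℝ) ^ (n / l) = (1 / 2 : ℝ) ^ (((n / l : ℕ) : ℝ)) := by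
    rw [Real.rpow_natCast, one_div, one_div, inv_pow]
  have h3 : (2 : ℝ) * (1 / 2 : ℝ) ^ ((n : ℝ) / l) = (1 / 2 : ℝ) ^ ((n : ℝ) / l - 1) := by
    rw [Real.rpow_sub (by norm_num), Real.rpow_one]; ring
  rw [h1, h2, h3]
  refine Real.rpow_le_rpow_of_exponent_ge (by norm_num) (by norm_num) ?_
  rw [sub_le_iff_le_add, div_le_iff₀ hl']
  have h4 : n < (n / l + 1) * l := Nat.lt_mul_of_div_lt (Nat.lt_succ_self _) (by omega)
  have h5 : (n : ℝ) < (((n / l + 1) * l : ℕ) : ℝ) := by exact_mod_cast h4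
  push_cast at h5
  exact h5.le

theorem corr_le_one (d L q : ℕ) (u w : Box d L) : |corr d L q u w| ≤ 1 := by
  have h1 : (({f ∈ boxCol d L q | f u = f w}.ncard : ℝ)) / ((boxCol d L q).ncard : ℝ) ≤ 1 := by
    rcases Nat.eq_zero_or_pos (boxCol d L q).ncard with h | h
    · rw [h]; simp
    · have h' : (0 : ℝ) < (boxCol d L q).ncard := by exact_mod_cast h
      rw [div_le_one h']
      have : {f ∈ boxCol d L q | f u = f w}.ncard ≤ (boxCol d L q).ncard :=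
        Set.ncard_le_ncard (fun f hf => hf.1) (Set.finite_of_ncard_pos h)
      exact_mod_cast this
  have h2 : 0 ≤ (({f ∈ boxCol d L q | f u = f w}.ncard : ℝ)) / ((boxCol d L q).ncard : ℝ) := by
    positivity
  have h3 : (1 : ℝ) / q ≤ 1 := by
    rcases Nat.eq_zero_or_pos q with h | h
    · rw [h]; simp
    · have : (1 : ℝ) ≤ q := by exact_mod_cast h
      rw [div_le_one (by linarith)]
      exact this
  have h4 : (0 : ℝ) ≤ 1 / q := by positivity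
  unfold corr
  rw [abs_le]
  constructor <;> linarith

end Pool.Agent.Y992.DZ
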