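import Pool.Agent.Y992.HE.Stm

set_option autoImplicit false

/-! Project DZ (owner helper992): proper `q`-colourings of `Z^d` are disordered for
`q ≥ (2 + ε) d`, `d ≥ d₀(ε)`: definitions and statements. -/

namespace Pool.Agent.Y992.DZ

open Finset Pool.Agent.H983R2.GC Pool.Agent.W341.UG Pool.Agent.Y992.HL

/-- Nearest-neighbour graph on the points of a set of lattice points (given by the map `x`). -/
def zgr {d : ℕ} {V : Type} (x : V → Fin d → ℤ) : SimpleGraph V where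
  Adj u w := ∑ i, |x u i - x w i| = 1
  symm := ⟨fun u w h => by simpa only [abs_sub_comm] using h⟩
  loopless := ⟨fun u h => by simp at h⟩

/-- The box `{1, …, L}^d`. -/
abbrev Box (d L : ℕ) : Type := {y : Fin d → ℤ // ∀ i, 1 ≤ y i ∧ y i ≤ L}

/-- Proper `q`-colourings of the box `{1, …, L}^d`. -/
def boxCol (d L q : ℕ) : Set (Box d L → Fin q) :=
  {f | ∀ u w, (∑ i, |u.1 i - w.1 i|) = 1 → f u ≠ f w}

/-- The probability that two points of the box get the same colour, for a uniformly random proper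
colouring, minus `1 / q`. -/
noncomputable def corr (d L q : ℕ) (u w : Box d L) : ℝ :=
  ({f ∈ boxCol d L q | f u = f w}.ncard : ℝ) / ((boxCol d L q).ncard : ℝ) - 1 / q

/-- Proper `q`-colourings of the finite set `R` of lattice points, compatible with the boundary
condition `τ` outside `R`. -/
def bcCol (d q : ℕ) (R : Finset (Fin d → ℤ)) (τ : (Fin d → ℤ) → Fin q) :
    Set (↥R → Fin q) :=
  {f | (∀ u w : ↥R, (∑ i, |u.1 i - w.1 i|) = 1 → f u ≠ f w) ∧
    ∀ (u : ↥R) (y : Fin d → ℤ), y ∉ R → (∑ i, |u.1 i - y i|) = 1 → f u ≠ τ y}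

/-- The probability that the colour of `v` is `a` under the uniform measure on `bcCol`. -/
noncomputable def bcPr (d q : ℕ) (R : Finset (Fin d → ℤ)) (τ : (Fin d → ℤ) → Fin q) (v : ↥R)
    (a : Fin q) : ℝ :=
  ({f ∈ bcCol d q R τ | f v = a}.ncard : ℝ) / ((bcCol d q R τ).ncard : ℝ)

/-- The influence bound for finite sets of lattice points. -/
def ZB (d q l : ℕ) (A : ℝ) : Prop :=
  ∀ (V : Type) [Fintype V] [DecidableEq V] (x : V → Fin d → ℤ) (c0 : Fin q),
    Function.Injective x → ∀ N j, IBD (zgr x) (fun u w => (∑ i, |x u i - x w i|).toNat) c0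
      (q - 2 * d) N j (A / 2 ^ (j / l))

/-- Correlations in boxes. -/
def S_COR : Prop := ∀ (d q l : ℕ) (A : ℝ), 0 ≤ A → 1 ≤ l → 2 * d + 2 ≤ q → ZB d q l A →
  ∀ (L : ℕ) (u w : Box d L), u ≠ w →
    |corr d L q u w| ≤ A / 2 ^ ((∑ i, |u.1 i - w.1 i|).toNat / l)

/-- Strong spatial mixing. -/
def S_SSM : Prop := ∀ (d q l : ℕ) (A : ℝ), 0 ≤ A → 1 ≤ l → 2 * d + 2 ≤ q → ZB d q l A →
  ∃ (K ρ : ℝ), 0 < K ∧ 0 < ρ ∧ ρ < 1 ∧
  ∀ (R : Finset (Fin d → ℤ)) (τ τ' : (Fin d → ℤ) → Fin q) (v : ↥R) (a : Fin q) (r : ℕ),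
    (∀ y, y ∉ R → (∑ i, |v.1 i - y i|) < (r : ℤ) → τ y = τ' y) →
    |bcPr d q R τ v a - bcPr d q R τ' v a| ≤ K * ρ ^ r

end Pool.Agent.Y992.DZ
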